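import Mathlib

/-! Sparse subsequences of slowly varying sequences. -/

set_option autoImplicit false

namespace Pool.Agent.X135.SW

open Filter Topology

/-- a sequence whose increments are bounded above by small numbers is determined along sparse
sequences -/
theorem sparse_close (v : ℕ → ℝ) (K β : ℝ) (hK : 0 ≤ K) (hβ : 0 ≤ β)
    (h : ∀ᶠ n : ℕ in atTop, v (n + 1) - v n ≤ K * (n : ℝ) ^ (-β)) (s : ℕ → ℕ)
    (hs : Tendsto s atTop atTop)
    (hgap : Tendsto (fun k => ((s (k + 1) : ℝ) - s k) * (s k : ℝ) ^ (-β)) atTop (𝓝 0))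
    (δ : ℝ) (hδ : 0 < δ) (k0 : ℕ) :
    ∃ N0 : ℕ, ∀ n, N0 ≤ n → ∃ k, k0 ≤ k ∧ s k ≤ n ∧ n < s (k + 1) ∧ 1 ≤ s k ∧
      ((s (k + 1) : ℝ) - s k) * (s k : ℝ) ^ (-β) ≤ δ ∧
      v n ≤ v (s k) + δ ∧ v (s (k + 1)) ≤ v n + δ := by
  obtain ⟨N1, hN1⟩ := eventually_atTop.1 h
  have hg : ∀ᶠ k : ℕ in atTop, ((s (k + 1) : ℝ) - s k) * (s k : ℝ) ^ (-β) < δ / (K + 1) :=
    hgap.eventually_lt_const (by positivity)
  obtain ⟨k2, hk2⟩ := eventually_atTop.1 hg
  obtain ⟨k3, hk3⟩ := eventually_atTop.1 (hs.eventually_ge_atTop (max N1 1))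
  set k1 := max k0 (max k2 k3) with hk1
  refine ⟨s k1, fun n hn => ?_⟩
  have hfin : ∃ M, ∀ k, M ≤ k → n < s k := eventually_atTop.1 (hs.eventually_gt_atTop n)
  obtain ⟨M, hM⟩ := hfin
  classical
  have hex : ∃ j, k1 ≤ j ∧ n < s (j + 1) := ⟨max k1 M, le_max_left _ _, hM _ (by omega)⟩
  set j := Nat.find hex with hj
  obtain ⟨hj1, hj2⟩ := Nat.find_spec hex
  rw [← hj] at hj1 hj2
  have hj3 : s j ≤ n := by
    rcases Nat.eq_or_lt_of_le hj1 with e | e
    · rw [← e]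
      exact hn
    · by_contra hcon
      have hlt : j - 1 < j := by omega
      refine Nat.find_min hex (hj ▸ hlt) ⟨by omega, ?_⟩
      rw [Nat.sub_add_cancel (by omega)]
      exact Nat.lt_of_not_le hcon
  have hjN : max N1 1 ≤ s j := hk3 j (le_trans (by omega) hj1)
  have hj0 : (1 : ℝ) ≤ s j := by exact_mod_cast (le_max_right N1 1).trans hjN
  have hp : 0 ≤ (s j : ℝ) ^ (-β) := by positivity
  have key : ∀ m i, s j ≤ m → v (m + i) - v m ≤ i * (K * (s j : ℝ) ^ (-β)) := by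
    intro m i hm
    have hm' : (s j : ℝ) ≤ m := by exact_mod_cast hm
    induction i with
    | zero => simp
    | succ i ih =>
      have h1 := hN1 (m + i) (by have := (le_max_left N1 1).trans hjN; omega)
      have h2 : ((m + i : ℕ) : ℝ) ^ (-β) ≤ (s j : ℝ) ^ (-β) := by
        apply Real.rpow_le_rpow_of_nonpos (by linarith) _ (by linarith)
        push_cast
        linarith [(Nat.cast_nonneg i : (0 : ℝ) ≤ i)]
      have h3 := mul_le_mul_of_nonneg_left h2 hK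
      push_cast
      rw [← add_assoc]
      calc v (m + i + 1) - v m = (v (m + i + 1) - v (m + i)) + (v (m + i) - v m) := by ring
        _ ≤ K * (s j : ℝ) ^ (-β) + i * (K * (s j : ℝ) ^ (-β)) := add_le_add (h1.trans h3) ih
        _ = _ := by ring
  have h6 := hk2 j (le_trans (by omega) hj1)
  have big : ∀ x : ℝ, x ≤ (s (j + 1) : ℝ) - s j → x * (K * (s j : ℝ) ^ (-β)) ≤ δ := by
    intro x hx
    calc x * (K * (s j : ℝ) ^ (-β))
        ≤ ((s (j + 1) : ℝ) - s j) * (K * (s j : ℝ) ^ (-β)) :=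
          mul_le_mul_of_nonneg_right hx (by positivity)
      _ = K * (((s (j + 1) : ℝ) - s j) * (s j : ℝ) ^ (-β)) := by ring
      _ ≤ K * (δ / (K + 1)) := mul_le_mul_of_nonneg_left h6.le hK
      _ ≤ δ := by
        rw [mul_div_assoc', div_le_iff₀ (by linarith)]
        nlinarith
  have hnj : (n : ℝ) ≤ s (j + 1) := by exact_mod_cast hj2.le
  have hjn : (s j : ℝ) ≤ n := by exact_mod_cast hj3
  refine ⟨j, le_trans (by omega) hj1, hj3, hj2, (le_max_right N1 1).trans hjN, ?_, ?_, ?_⟩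
  · refine h6.le.trans (div_le_self hδ.le (by linarith))
  · have h5 := key (s j) (n - s j) le_rfl
    rw [Nat.add_sub_cancel' hj3] at h5
    have := big ((n - s j : ℕ) : ℝ) (by rw [Nat.cast_sub hj3]; linarith)
    linarith
  · have h5 := key n (s (j + 1) - n) hj3
    rw [Nat.add_sub_cancel' hj2.le] at h5
    have := big ((s (j + 1) - n : ℕ) : ℝ) (by rw [Nat.cast_sub hj2.le]; linarith)
    linarith

/-- convergence along a sparse sequence -/
theorem sparse_tendsto (v : ℕ → ℝ) (K β : ℝ) (hK : 0 ≤ K) (hβ : 0 ≤ β)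
    (h : ∀ᶠ n : ℕ in atTop, v (n + 1) - v n ≤ K * (n : ℝ) ^ (-β)) (s : ℕ → ℕ)
    (hs : Tendsto s atTop atTop)
    (hgap : Tendsto (fun k => ((s (k + 1) : ℝ) - s k) * (s k : ℝ) ^ (-β)) atTop (𝓝 0)) (a : ℝ)
    (ha : Tendsto (fun k => v (s k)) atTop (𝓝 a)) : Tendsto v atTop (𝓝 a) := by
  rw [Metric.tendsto_atTop]
  intro ε hε
  obtain ⟨k0, hk0⟩ := (Metric.tendsto_atTop.1 ha) (ε / 2) (by positivity)
  obtain ⟨N0, hN0⟩ := sparse_close v K β hK hβ h s hs hgap (ε / 4) (by positivity) k0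
  refine ⟨N0, fun n hn => ?_⟩
  obtain ⟨k, hk, -, -, -, -, h1, h1'⟩ := hN0 n hn
  have h2 := hk0 k hk
  have h3 := hk0 (k + 1) (by omega)
  rw [Real.dist_eq, abs_lt] at h2 h3 ⊢
  constructor <;> linarith

/-- smallness relative to the logarithm along a sparse sequence -/
theorem sparse_small (v : ℕ → ℝ) (K β : ℝ) (hK : 0 ≤ K) (hβ : 0 ≤ β) (hβ1 : β ≤ 1)
    (h : ∀ᶠ n : ℕ in atTop, v (n + 1) - v n ≤ K * (n : ℝ) ^ (-β)) (s : ℕ → ℕ)
    (hs : Tendsto s atTop atTop)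
    (hgap : Tendsto (fun k => ((s (k + 1) : ℝ) - s k) * (s k : ℝ) ^ (-β)) atTop (𝓝 0))
    (ha : Tendsto (fun k => v (s k) / Real.log (2 * s k)) atTop (𝓝 0)) :
    Tendsto (fun n => v n / Real.log (2 * n)) atTop (𝓝 0) := by
  rw [Metric.tendsto_atTop] at ha ⊢
  intro ε hε
  obtain ⟨k0, hk0⟩ := ha (ε / 4) (by positivity)
  obtain ⟨N0, hN0⟩ := sparse_close v K β hK hβ h s hs hgap (min (ε / 4) 1) (by positivity) k0
  refine ⟨max N0 2, fun n hn => ?_⟩
  obtain ⟨k, hk, hk2, hk4, hk3, hk5, h1, h1'⟩ := hN0 n ((le_max_left _ _).trans hn)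
  have h2 := hk0 k hk
  have h2' := hk0 (k + 1) (by omega)
  rw [Real.dist_eq, sub_zero] at h2 h2' ⊢
  have hn2 : (2 : ℝ) ≤ n := by exact_mod_cast (le_max_right _ _).trans hn
  have hs1 : (1 : ℝ) ≤ (s k : ℝ) := by exact_mod_cast hk3
  have hsn : (s k : ℝ) ≤ (n : ℝ) := by exact_mod_cast hk2
  have hns : (n : ℝ) ≤ (s (k + 1) : ℝ) := by exact_mod_cast hk4.le
  have hm1 := min_le_left (ε / 4) 1
  have hm2 := min_le_right (ε / 4) 1
  have hs2 : (s (k + 1) : ℝ) ≤ 2 * n := by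
    have e1 : (s k : ℝ) ^ (-β) * (s k : ℝ) ^ β = 1 := by
      rw [← Real.rpow_add (by linarith), neg_add_cancel, Real.rpow_zero]
    have e2 : (s k : ℝ) ^ β ≤ s k := by
      calc (s k : ℝ) ^ β ≤ (s k : ℝ) ^ (1 : ℝ) := Real.rpow_le_rpow_of_exponent_le hs1 hβ1
        _ = _ := Real.rpow_one _
    have e3 : 0 ≤ (s k : ℝ) ^ β := by positivity
    have e4 := mul_le_mul_of_nonneg_right (hk5.trans hm2) e3
    rw [mul_assoc, e1, mul_one, one_mul] at e4
    linarith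
  have hl1 : 0 < Real.log (2 * (s k : ℝ)) := Real.log_pos (by linarith)
  have hl1' : 0 < Real.log (2 * (s (k + 1) : ℝ)) := Real.log_pos (by linarith)
  have hl2 : Real.log (2 * s k) ≤ Real.log (2 * n) :=
    Real.log_le_log (by linarith) (by linarith)
  have hl3 : 1 ≤ Real.log (2 * n) := by
    have : Real.exp 1 ≤ 2 * n := by
      have := Real.exp_one_lt_d9
      linarith
    calc (1 : ℝ) = Real.log (Real.exp 1) := (Real.log_exp 1).symm
      _ ≤ _ := Real.log_le_log (Real.exp_pos 1) this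
  have hl2' : Real.log (2 * s (k + 1)) ≤ 2 * Real.log (2 * n) := by
    calc Real.log (2 * s (k + 1)) ≤ Real.log (2 * (2 * n)) :=
          Real.log_le_log (by linarith) (by linarith)
      _ = Real.log 2 + Real.log (2 * n) := Real.log_mul (by norm_num) (by linarith)
      _ ≤ _ := by linarith [Real.log_two_lt_d9]
  rw [abs_div, abs_of_pos hl1, div_lt_iff₀ hl1] at h2
  rw [abs_div, abs_of_pos hl1', div_lt_iff₀ hl1'] at h2'
  have hl4 : 0 < Real.log (2 * (n : ℝ)) := by linarith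
  rw [abs_div, abs_of_pos hl4, div_lt_iff₀ hl4]
  have h4 : ε / 4 * Real.log (2 * s k) ≤ ε / 4 * Real.log (2 * n) :=
    mul_le_mul_of_nonneg_left hl2 (by positivity)
  have h5 : ε / 4 * Real.log (2 * s (k + 1)) ≤ ε / 4 * (2 * Real.log (2 * n)) :=
    mul_le_mul_of_nonneg_left hl2' (by positivity)
  have h6 : ε / 4 * 1 ≤ ε / 4 * Real.log (2 * n) := mul_le_mul_of_nonneg_left hl3 (by positivity)
  rw [abs_lt] at h2 h2' ⊢
  constructor <;> nlinarith

/-- from eventual bounds to bounds for all `n ≥ 1` -/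
theorem all_of_eventually (f g : ℕ → ℝ) (hg : ∀ n, 1 ≤ n → 0 < g n) (K : ℝ)
    (h : ∀ᶠ n in atTop, f n ≤ K * g n) : ∃ K' : ℝ, ∀ K'' : ℝ, K' ≤ K'' → ∀ n, 1 ≤ n →
      f n ≤ K'' * g n := by
  obtain ⟨N, hN⟩ := eventually_atTop.1 h
  refine ⟨|K| + ∑ m ∈ Finset.range N, |f m / g m|, fun K'' hK'' n hn => ?_⟩
  have hS : 0 ≤ ∑ m ∈ Finset.range N, |f m / g m| := Finset.sum_nonneg fun _ _ => abs_nonneg _
  have hgn := hg n hn
  rcases Nat.lt_or_ge n N with h1 | h1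
  · have h2 := Finset.single_le_sum (f := fun m => |f m / g m|) (fun _ _ => abs_nonneg _)
      (Finset.mem_range.2 h1)
    have h3 : f n / g n ≤ K'' := by
      have := le_abs_self (f n / g n)
      have := abs_nonneg K
      linarith
    rwa [div_le_iff₀ hgn] at h3
  · refine (hN n h1).trans (mul_le_mul_of_nonneg_right ?_ hgn.le)
    have := le_abs_self K
    linarith

end Pool.Agent.X135.SW
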